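import Pool.Agent.Lib_helper32.JO.N2

/-!
# Project JO, part B1, block FOU: Fourier expansion of the constant term
-/

set_option autoImplicit false

namespace Pool.Agent.JO

open Complex MeasureTheory Filter Topology
open UpperHalfPlane hiding I
open scoped MatrixGroups ComplexConjugate ENNReal

/-- orthogonality of the characters -/
lemma fou_orth {M : ℝ} (hM : 0 < M) (m n : ℤ) :
    ∫ x in (0 : ℝ)..M, cexp (2 * Real.pi * I * (n * x / M : ℝ)) *
      conj (cexp (2 * Real.pi * I * (m * x / M : ℝ))) = if m = n then (M : ℂ) else 0 := by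
  have hM' : (M : ℂ) ≠ 0 := by exact_mod_cast hM.ne'
  have e : ∀ x : ℝ, cexp (2 * Real.pi * I * (n * x / M : ℝ)) *
      conj (cexp (2 * Real.pi * I * (m * x / M : ℝ))) =
      cexp ((2 * Real.pi * I * ((n : ℂ) - m) / M) * x) := by
    intro x
    rw [← Complex.exp_conj, ← Complex.exp_add]
    congr 1
    simp only [map_mul, Complex.conj_ofReal, Complex.conj_I, map_ofNat]
    push_cast
    field_simp
    ring
  simp only [e]
  by_cases h : m = n
  · rw [if_pos h, h]
    simp
  · rw [if_neg h]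
    have h1 : ((n : ℂ) - m) ≠ 0 := by
      rw [sub_ne_zero]
      exact_mod_cast (Ne.symm h)
    have h2 : (2 * Real.pi * I * ((n : ℂ) - m) / M) ≠ 0 := by
      refine div_ne_zero (mul_ne_zero ?_ h1) hM'
      exact Complex.two_pi_I_ne_zero
    rw [integral_exp_mul_complex h2]
    have h3 : (2 * Real.pi * I * ((n : ℂ) - m) / M) * (M : ℂ) = ((n - m : ℤ) : ℂ) * (2 * Real.pi * I) := by
      push_cast
      field_simp
    rw [h3, Complex.exp_int_mul_two_pi_mul_I]
    simp

lemma fou_norm (n : ℤ) (x M : ℝ) : ‖cexp (2 * Real.pi * I * (n * x / M : ℝ))‖ = 1 := by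
  have : (2 * Real.pi * I * (n * x / M : ℝ) : ℂ) = ((2 * Real.pi * (n * x / M) : ℝ) : ℂ) * I := by
    push_cast
    ring
  rw [this]
  exact Complex.norm_exp_ofReal_mul_I _

lemma fou_cont (n : ℤ) (M : ℝ) :
    Continuous (fun x : ℝ => cexp (2 * Real.pi * I * (n * x / M : ℝ))) := by
  fun_prop

lemma fou_sum_cont {M : ℝ} {b : ℤ → ℂ} (hb : Summable fun n => ‖b n‖) :
    Continuous (fun x : ℝ => ∑' n : ℤ, b n * cexp (2 * Real.pi * I * (n * x / M : ℝ))) := by
  refine continuous_tsum (fun n => continuous_const.mul (fou_cont n M)) hb fun n x => ?_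
  rw [norm_mul, fou_norm, mul_one]

lemma fou_summ {M : ℝ} {b : ℤ → ℂ} (hb : Summable fun n => ‖b n‖) (x : ℝ) :
    Summable (fun n : ℤ => b n * cexp (2 * Real.pi * I * (n * x / M : ℝ))) := by
  refine Summable.of_norm_bounded hb fun n => ?_
  rw [norm_mul, fou_norm, mul_one]

/-- one factor a character -/
lemma fou_one {M : ℝ} (hM : 0 < M) (n : ℤ) {b : ℤ → ℂ} (hb : Summable fun n => ‖b n‖) :
    ∫ x in (0 : ℝ)..M, cexp (2 * Real.pi * I * (n * x / M : ℝ)) *
      conj (∑' m : ℤ, b m * cexp (2 * Real.pi * I * (m * x / M : ℝ))) = M * conj (b n) := by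
  have h := intervalIntegral.hasSum_integral_of_dominated_convergence (μ := volume) (a := 0) (b := M)
    (F := fun (m : ℤ) (x : ℝ) => cexp (2 * Real.pi * I * (n * x / M : ℝ)) *
      conj (b m * cexp (2 * Real.pi * I * (m * x / M : ℝ))))
    (f := fun x => cexp (2 * Real.pi * I * (n * x / M : ℝ)) *
      conj (∑' m : ℤ, b m * cexp (2 * Real.pi * I * (m * x / M : ℝ))))
    (fun m _ => ‖b m‖) ?_ ?_ ?_ ?_ ?_
  · rw [← h.tsum_eq, tsum_eq_single n]
    · have e : ∀ x : ℝ, cexp (2 * Real.pi * I * (n * x / M : ℝ)) *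
          conj (b n * cexp (2 * Real.pi * I * (n * x / M : ℝ))) =
          conj (b n) * (cexp (2 * Real.pi * I * (n * x / M : ℝ)) *
          conj (cexp (2 * Real.pi * I * (n * x / M : ℝ)))) := by
        intro x
        rw [map_mul]
        ring
      simp only [e]
      rw [intervalIntegral.integral_const_mul, fou_orth hM, if_pos rfl, mul_comm]
    · intro m hm
      have e : ∀ x : ℝ, cexp (2 * Real.pi * I * (n * x / M : ℝ)) *
          conj (b m * cexp (2 * Real.pi * I * (m * x / M : ℝ))) =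
          conj (b m) * (cexp (2 * Real.pi * I * (n * x / M : ℝ)) *
          conj (cexp (2 * Real.pi * I * (m * x / M : ℝ)))) := by
        intro x
        rw [map_mul]
        ring
      simp only [e]
      rw [intervalIntegral.integral_const_mul, fou_orth hM, if_neg hm, mul_zero]
  · intro m
    exact ((fou_cont n M).mul (Complex.continuous_conj.comp
      (continuous_const.mul (fou_cont m M)))).aestronglyMeasurable
  · intro m
    refine Eventually.of_forall fun x _ => ?_
    rw [norm_mul, fou_norm, one_mul, RCLike.norm_conj, norm_mul, fou_norm, mul_one]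
  · exact Eventually.of_forall fun x _ => hb
  · exact intervalIntegrable_const
  · refine Eventually.of_forall fun x _ => ?_
    have h1 := (fou_summ (M := M) hb x).hasSum
    exact (h1.map (starRingEnd ℂ) Complex.continuous_conj).mul_left _

theorem fou_parseval_pr {M : ℝ} (hM : 0 < M) {a b : ℤ → ℂ} (ha : Summable fun n => ‖a n‖)
    (hb : Summable fun n => ‖b n‖) :
    ∫ x in (0 : ℝ)..M, (∑' n : ℤ, a n * cexp (2 * Real.pi * I * (n * x / M : ℝ))) *
        conj (∑' n : ℤ, b n * cexp (2 * Real.pi * I * (n * x / M : ℝ))) =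
      M * ∑' n : ℤ, a n * conj (b n) := by
  set g : ℝ → ℂ := fun x => conj (∑' m : ℤ, b m * cexp (2 * Real.pi * I * (m * x / M : ℝ))) with hg
  have hgc : Continuous g := Complex.continuous_conj.comp (fou_sum_cont hb)
  have hgb : ∀ x, ‖g x‖ ≤ ∑' n, ‖b n‖ := by
    intro x
    rw [hg]
    simp only
    rw [RCLike.norm_conj]
    refine (norm_tsum_le_tsum_norm ?_).trans (le_of_eq ?_)
    · refine hb.congr fun n => ?_
      rw [norm_mul, fou_norm, mul_one]
    · refine tsum_congr fun n => ?_
      rw [norm_mul, fou_norm, mul_one]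
  have h := intervalIntegral.hasSum_integral_of_dominated_convergence (μ := volume) (a := 0) (b := M)
    (F := fun (n : ℤ) (x : ℝ) => a n * cexp (2 * Real.pi * I * (n * x / M : ℝ)) * g x)
    (f := fun x => (∑' n : ℤ, a n * cexp (2 * Real.pi * I * (n * x / M : ℝ))) * g x)
    (fun n _ => ‖a n‖ * ∑' n, ‖b n‖) ?_ ?_ ?_ ?_ ?_
  · rw [← h.tsum_eq, ← tsum_mul_left]
    refine tsum_congr fun n => ?_
    have e : ∀ x : ℝ, a n * cexp (2 * Real.pi * I * (n * x / M : ℝ)) * g x =
        a n * (cexp (2 * Real.pi * I * (n * x / M : ℝ)) * g x) := fun x => mul_assoc _ _ _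
    simp only [e]
    rw [intervalIntegral.integral_const_mul, hg]
    simp only
    rw [fou_one hM n hb]
    ring
  · intro n
    exact ((continuous_const.mul (fou_cont n M)).mul hgc).aestronglyMeasurable
  · intro n
    refine Eventually.of_forall fun x _ => ?_
    rw [norm_mul, norm_mul, fou_norm, mul_one]
    exact mul_le_mul_of_nonneg_left (hgb x) (norm_nonneg _)
  · exact Eventually.of_forall fun x _ => ha.mul_right _
  · exact intervalIntegrable_const
  · refine Eventually.of_forall fun x _ => ?_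
    exact (fou_summ (M := M) ha x).hasSum.mul_right _

section

variable {N : ℕ} [NeZero N] {χ : DirichletCharacter ℂ N} {k : ℕ} {lam : ℕ → ℂ} {u : ℍ → ℂ}

lemma fou_c (hu : WForm N χ k lam u) (w : ℍ) (s' : QN N) :
    Continuous (fun g : SL(2, ℝ) => PsiF k u w s' g) := by
  have h := psi_cont hu s'
  have h4 : Continuous (fun g : SL(2, ℝ) => (w, g)) := Continuous.prodMk continuous_const continuous_id
  have h5 := h.comp h4
  exact h5

theorem fou_pr {Wp Wm : ℝ → ℂ} (hu : WForm N χ k lam u) (he : HasExp Wp Wm (liftK (N := N) k u))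
    {v : ZMod N × ZMod N} (hv : v ∈ PV N) : ∃ r : ℤ → ℂ, r 0 = 0 ∧ ∀ (w : ℍ) (y : ℝ), 0 < y →
      (Summable fun n : ℤ => ‖((‖r n‖ ^ 2 : ℝ) : ℂ) * fL Wp Wm w n (|(n : ℝ)| * y / N)‖) ∧
      CF (PsiF (N := N) k u w) (xa 0 y) v =
        ∑' n : ℤ, ((‖r n‖ ^ 2 : ℝ) : ℂ) * fL Wp Wm w n (|(n : ℝ)| * y / N) := by
  obtain ⟨s, -, hs⟩ := Finset.mem_image.1 hv
  subst hs
  obtain ⟨r, hr0, hsum, hexp⟩ := he s
  refine ⟨r, hr0, fun w y hy => ?_⟩
  have hN : (0 : ℝ) < N := by exact_mod_cast Nat.pos_of_ne_zero (NeZero.ne N)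
  set W : ℤ → ℝ → ℂ := fun n Y => if 0 < n then Wp Y else Wm Y with hW
  set a : ℤ → ℂ := fun n => r n * W n (|(n : ℝ)| * y / N) with ha
  set b : ℤ → ℂ := fun n => r n * W n (|(n : ℝ)| * (y * w.im) / N) *
    cexp (2 * Real.pi * I * (n * (y * w.re) / N : ℝ)) with hb
  have has : Summable fun n => ‖a n‖ := hsum y hy
  have hbs : Summable fun n => ‖b n‖ := by
    refine (hsum (y * w.im) (mul_pos hy w.im_pos)).congr fun n => ?_
    have h1 : ‖b n‖ = ‖r n * W n (|(n : ℝ)| * (y * w.im) / N)‖ := by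
      simp only [hb]
      rw [norm_mul (r n * _), fou_norm, mul_one]
    exact h1.symm
  have hterm : ∀ n : ℤ, a n * conj (b n) =
      ((‖r n‖ ^ 2 : ℝ) : ℂ) * fL Wp Wm w n (|(n : ℝ)| * y / N) := by
    intro n
    have hrr : ((‖r n‖ ^ 2 : ℝ) : ℂ) = r n * conj (r n) := by
      rw [Complex.mul_conj, Complex.normSq_eq_norm_sq]
    have hconj : conj (cexp (2 * Real.pi * I * (n * (y * w.re) / N : ℝ))) =
        cexp (-(2 * Real.pi * I * (n * (y * w.re) / N : ℝ))) := by
      rw [← Complex.exp_conj]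
      congr 1
      simp only [map_mul, Complex.conj_ofReal, Complex.conj_I, map_ofNat]
      ring
    have hy2 : |(n : ℝ)| * (y * w.im) / N = w.im * (|(n : ℝ)| * y / N) := by ring
    rcases lt_trichotomy n 0 with h | h | h
    · have h' : ¬ 0 < n := by omega
      have habs : |(n : ℝ)| = -(n : ℝ) := abs_of_neg (by exact_mod_cast h)
      simp only [ha, hb, hW, fL, fLoc, if_neg h', map_mul, hconj, hrr, hy2]
      have e3 : (-(2 * Real.pi * I * (n * (y * w.re) / N : ℝ)) : ℂ) =
          -(2 * Real.pi * I * ((-1 * w.re * (|(n : ℝ)| * y / N) : ℝ) : ℂ)) := by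
        rw [habs]
        push_cast
        ring
      rw [e3]
      ring
    · subst h
      simp [ha, hb, hr0]
    · have habs : |(n : ℝ)| = (n : ℝ) := abs_of_pos (by exact_mod_cast h)
      simp only [ha, hb, hW, fL, fLoc, if_pos h, map_mul, hconj, hrr, hy2]
      have e3 : (-(2 * Real.pi * I * (n * (y * w.re) / N : ℝ)) : ℂ) =
          -(2 * Real.pi * I * ((1 * w.re * (|(n : ℝ)| * y / N) : ℝ) : ℂ)) := by
        rw [habs]
        push_cast
        ring
      rw [e3]
      ring
  constructor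
  · have h1 : Summable fun n : ℤ => ‖a n‖ * ‖b n‖ :=
      (has.mul_of_nonneg hbs (fun n => norm_nonneg _) (fun n => norm_nonneg _)).comp_injective
        (i := fun n : ℤ => (n, n)) (fun m n h => (Prod.ext_iff.1 h).1)
    refine h1.congr fun n => ?_
    rw [← hterm, norm_mul (a n), RCLike.norm_conj]
  · -- the constant term
    have hx : xa 0 y ≠ 0 := by
      unfold xa
      refine div_ne_zero (mul_ne_zero I_ne_zero (Complex.exp_ne_zero _)) ?_
      exact_mod_cast (Real.sqrt_pos.2 hy).ne'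
    have hgx : ∀ t : ℝ, gx (xa 0 y) t = gg ⟨⟨t, y⟩, hy⟩ 0 := by
      intro t
      rw [gx_eq_gg]
      rfl
    have hcont : ∀ s' : QN N, Continuous (fun t : ℝ => PsiF k u w s' (gx (xa 0 y) t)) := by
      intro s'
      have h1 : Continuous (fun t : ℝ => gg (⟨⟨t, y⟩, hy⟩ : ℍ) 0) := by
        refine gg_cont.comp (Continuous.prodMk ?_ continuous_const)
        rw [UpperHalfPlane.isEmbedding_coe.continuous_iff]
        have : ((fun z : ℍ => (z : ℂ)) ∘ fun t : ℝ => (⟨⟨t, y⟩, hy⟩ : ℍ)) =
            fun t : ℝ => (t : ℂ) + y * I := by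
          funext t
          apply Complex.ext <;> simp
        rw [this]
        fun_prop
      have h3 : Continuous (fun t : ℝ => gx (xa 0 y) t) := h1.congr fun t => (hgx t).symm
      exact (fou_c hu w s').comp h3
    rw [CF_eq (psi_mf hu w).1 hx s (fun s' => (hcont s').intervalIntegrable _ _)]
    have hint : ∀ t : ℝ, PsiF k u w s (gx (xa 0 y) t) =
        (∑' n : ℤ, a n * cexp (2 * Real.pi * I * (n * t / N : ℝ))) *
          conj (∑' n : ℤ, b n * cexp (2 * Real.pi * I * (n * t / N : ℝ))) := by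
      intro t
      rw [hgx]
      unfold PsiF
      rw [gg_mul_gg, hexp, hexp]
      congr 1
      congr 1
      refine tsum_congr fun n => ?_
      rw [gg_smul_im, gg_smul_re]
      simp only [hb, hW]
      rw [mul_assoc (r n * _)]
      congr 1
      rw [← Complex.exp_add]
      congr 1
      have e1 : (⟨⟨t, y⟩, hy⟩ : ℍ).re = t := rfl
      have e2 : (⟨⟨t, y⟩, hy⟩ : ℍ).im = y := rfl
      rw [e1, e2]
      push_cast
      ring
    simp only [hint]
    rw [fou_parseval_pr hN has hbs]
    have hNC : (N : ℂ) ≠ 0 := by exact_mod_cast NeZero.ne N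
    rw [Complex.ofReal_natCast, ← mul_assoc, inv_mul_cancel₀ hNC, one_mul]
    exact tsum_congr hterm

end

end Pool.Agent.JO
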